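import Pool.Agent.L0h14.OR.Defs

/-!
# Uniruled threefolds: the canonical class and covering families of rational curves
-/

universe u v

open CategoryTheory

set_option autoImplicit false

namespace Pool.Agent.L0h14.UR

open Pool.Agent.W539.DI Pool.Agent.R941.OH Pool.Agent.N174.OC Pool.Agent.L0h14.OR

variable {𝒪 : ℕ → Type u} [Category.{v} (Var 𝒪)] [Preadditive (Var 𝒪)] [Linear ℚ (Var 𝒪)]

/-- Let `κ` be a correspondence of degree one from `X` to itself, for example the push-forward of the canonical class of `X` to
the diagonal. There is a correspondence `l` of degree `-1` such that `κ l + l κ` is the diagonal up to correspondences which come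
from curves and points.

This holds for the canonical class of a threefold `X` covered by rational curves. Let `p : Z → S` be a family of rational
curves parametrised by a surface, `f : Z → X` dominant of degree `d`, and `-e` the degree of `K_X` on the curves, `e ≥ 2`. By
the formulas for projective bundles and blow-ups, `p^* p_* D + D p^* p_*` is the degree of `D` on the fibres of `p` up to
correspondences which come from curves, for every divisor `D` of `Z`. Take `D = f^* K_X` and
`l = -(1 / d e) f_* p^* p_* f^*`, a multiple of the class of the pairs of points which lie on a curve of the family. -/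
def Ruled (T : ChowTheory 𝒪) {X : Var 𝒪} (κ : X ⟶ X) : Prop :=
  κ ∈ T.gr X X 1 ∧ ∃ l ∈ T.gr X X (-1), κ ≫ l + l ≫ κ - 𝟙 X ∈ Through 1 X X

/-- `v` intertwines the correspondences `κ` and `κ'` of degree one. For an equivalence of derived categories this holds for the
canonical classes, since equivalences commute with the Serre functors. -/
def Intertwines (T : ChowTheory 𝒪) {X Y : Var 𝒪} (κ : X ⟶ X) (κ' : Y ⟶ Y) (v : X ⟶ Y) : Prop :=
  κ ∈ T.gr X X 1 ∧ κ' ∈ T.gr Y Y 1 ∧ κ ≫ v = v ≫ κ'

end Pool.Agent.L0h14.UR
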