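import Pool.Agent.L0h14.UR.Inj3
import Pool.Agent.L0h14.OR.Units
import Pool.Agent.L0h14.OR.Lift
import Pool.Agent.L0h14.OR.Low

/-!
# Orlov's conjecture for uniruled threefolds: assembly
-/

universe u v

open CategoryTheory

set_option autoImplicit false

namespace Pool.Agent.L0h14.UR

open Pool.Agent.W539.DI Pool.Agent.R941.OH Pool.Agent.N174.OC Pool.Agent.L0h14.OR Pool.Agent.Y107

variable {𝒪 : ℕ → Type u} [Category.{v} (Var 𝒪)] [Preadditive (Var 𝒪)] [Linear ℚ (Var 𝒪)] (T : ChowTheory 𝒪)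

theorem orlov {X Y : 𝒪 3} {v : (⟨3, X⟩ : Var 𝒪) ⟶ ⟨3, Y⟩} {w : (⟨3, Y⟩ : Var 𝒪) ⟶ ⟨3, X⟩}
    (h : T.IsDerivedPair v w) {κ : (⟨3, X⟩ : Var 𝒪) ⟶ ⟨3, X⟩} {κ' : (⟨3, Y⟩ : Var 𝒪) ⟶ ⟨3, Y⟩}
    (hv : Intertwines T κ κ' v) (hR : Ruled T κ) : T.ChowIso ⟨3, X⟩ ⟨3, Y⟩ := by
  have hw := inter_inv hv h.left h.right
  have n1 : ∀ i < 0, cmp (T.isInternal ⟨3, X⟩ ⟨3, Y⟩) i v ∈ Through 1 (⟨3, X⟩ : Var 𝒪) ⟨3, Y⟩ :=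
    fun i hi => neg_left T rfl hR hv hi
  have n2 : ∀ i < 0, cmp (T.isInternal ⟨3, Y⟩ ⟨3, X⟩) i w ∈ Through 1 (⟨3, Y⟩ : Var 𝒪) ⟨3, X⟩ :=
    fun i hi => neg_right T rfl rfl hR hw hi
  have k1 := z0_inv T h.left n1 n2
  have k2 := z0_inv T h.right n2 n1
  have hB := conjB T (X := ⟨3, X⟩) rfl hR
  have hH := Low T X Y v w h hB (fun j h1 h2 => by omega)
  exact units Lift T _ _ _ (cmp_mem (T.isInternal ⟨3, X⟩ ⟨3, Y⟩) 0 v) _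
    (cmp_mem (T.isInternal ⟨3, Y⟩ ⟨3, X⟩) 0 w) k1 k2 hH

end Pool.Agent.L0h14.UR
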