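import Pool.Agent.L0h14.UR.Neg
import Pool.Agent.L0h14.OR.B1
import Pool.Agent.L0h14.OR.B2
import Pool.Agent.L0h14.OR.B3

/-!
# Uniruled threefolds: the standard conjecture of Lefschetz type
-/

universe u v

open CategoryTheory
open scoped ComplexConjugate

set_option autoImplicit false

namespace Pool.Agent.L0h14.UR

open Pool.Agent.W539.DI Pool.Agent.R941.OH Pool.Agent.N174.OC Pool.Agent.L0h14.OR Pool.Agent.Y107

variable {𝒪 : ℕ → Type u} [Category.{v} (Var 𝒪)] [Preadditive (Var 𝒪)] [Linear ℚ (Var 𝒪)] (T : ChowTheory 𝒪)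

/-- the point -/
abbrev Pt : Var 𝒪 := ⟨0, T.point⟩

/-- the complex span of the classes of algebraic cycles of codimension `i` -/
def AlgC (X : Var 𝒪) (i : ℤ) : Submodule ℂ (T.K X).R :=
  Submodule.span ℂ {x | ∃ Δ ∈ T.gr (Pt T) X i, x = T.act Δ 1}

lemma one_memH (X : Var 𝒪) : (1 : (T.K X).R) ∈ (T.K X).H (0, 0) := SetLike.GradedOne.one_mem (A := (T.K X).H)

lemma alg_mem {X : Var 𝒪} {i : ℤ} {Δ : Pt T ⟶ X} (hΔ : Δ ∈ T.gr (Pt T) X i) : T.act Δ 1 ∈ AlgC T X i :=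
  Submodule.subset_span ⟨Δ, hΔ, rfl⟩

lemma one_ne (X : Var 𝒪) : (1 : (T.K X).R) ≠ 0 := by
  intro h
  have : Subsingleton (T.K X).R := subsingleton_of_zero_eq_one h.symm
  have hc := (T.K X).conn
  rw [Module.finrank_zero_of_subsingleton] at hc
  omega

/-- the trace of the class `1` of a point -/
lemma tau_ne : (T.K (Pt T)).tr 1 ≠ 0 := by
  intro h
  refine one_ne T (Pt T) ((T.K (Pt T)).pd 0 0 1 (one_memH T _) fun y hy => ?_)
  have hy' : y ∈ (T.K (Pt T)).H (0, 0) := by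
    have e : ((((Pt T).dim : ℕ) : ℤ) - 0, (((Pt T).dim : ℕ) : ℤ) - 0) = ((0, 0) : ℤ × ℤ) := by simp
    rwa [e] at hy
  obtain ⟨a, rfl⟩ := H_zero _ hy'
  rw [one_mul, map_smul, h, smul_zero]

/-- rational classes of type `(1, 1)` are algebraic -/
lemma alg_one {X : Var 𝒪} {D : (T.K X).R} (hr : (T.r X).IsRat D) (hD : D ∈ (T.K X).H (1, 1)) : D ∈ AlgC T X 1 := by
  obtain ⟨Γ, hΓ, hact⟩ := T.lef11 (X := Pt T) (Y := X) ((T.K (Pt T)).tr.smulRight D)
    (fun x hx => by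
      obtain ⟨q, hq⟩ := rat_tr (T.r (Pt T)) hx
      rw [LinearMap.smulRight_apply, hq]
      exact rat_smul _ q hr)
    (fun p q x hx => by
      rw [LinearMap.smulRight_apply]
      by_cases h : p = 0 ∧ q = 0
      · obtain ⟨rfl, rfl⟩ := h
        have e : ((0 : ℤ) + (1 - (((Pt T).dim : ℕ) : ℤ)), (0 : ℤ) + (1 - (((Pt T).dim : ℕ) : ℤ))) = ((1, 1) : ℤ × ℤ) := by
          simp
        rw [e]
        exact Submodule.smul_mem _ _ hD
      · rw [(T.K (Pt T)).tr_van p q x hx (by simpa using h), zero_smul]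
        exact Submodule.zero_mem _)
  have h1 : T.act Γ 1 = (T.K (Pt T)).tr 1 • D := by rw [hact, LinearMap.smulRight_apply]
  have h2 : T.act Γ 1 ∈ AlgC T X 1 := by
    refine alg_mem T ?_
    have e : (1 : ℤ) - (((Pt T).dim : ℕ) : ℤ) = 1 := by simp
    rwa [e] at hΓ
  have h3 : D = ((T.K (Pt T)).tr 1)⁻¹ • T.act Γ 1 := by
    rw [h1, smul_smul, inv_mul_cancel₀ (tau_ne T), one_smul]
  rw [h3]
  exact Submodule.smul_mem _ _ h2

lemma act_one_mem {X : Var 𝒪} {i : ℤ} {Δ : Pt T ⟶ X} (hΔ : Δ ∈ T.gr (Pt T) X i) : T.act Δ 1 ∈ (T.K X).H (i, i) := by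
  have := T.act_mem hΔ 0 0 1 (one_memH T _)
  rwa [zero_add] at this

lemma act_one_rat {X : Var 𝒪} (Δ : Pt T ⟶ X) : (T.r X).IsRat (T.act Δ 1) :=
  T.act_rat Δ 1 (fun i => (T.r (Pt T)).one_rat i)

lemma alg_le {X : Var 𝒪} {i : ℤ} {x : (T.K X).R} (hx : x ∈ AlgC T X i) : x ∈ (T.K X).H (i, i) := by
  have : AlgC T X i ≤ (T.K X).H (i, i) := by
    refine Submodule.span_le.2 ?_
    rintro _ ⟨Δ, hΔ, rfl⟩
    exact act_one_mem T hΔ
  exact this hx

/-- algebraic classes of degree four are Lefschetz multiples of divisors -/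
lemma alg_two {X : Var 𝒪} (hX : X.dim = 3) {z : (T.K X).R} (hz : z ∈ AlgC T X 2) :
    ∃ x ∈ AlgC T X 1, (T.K X).ω * x = z := by
  have : AlgC T X 2 ≤ (AlgC T X 1).map (LinearMap.mulLeft ℂ (T.K X).ω) := by
    refine Submodule.span_le.2 ?_
    rintro _ ⟨Δ, hΔ, rfl⟩
    have h1 := act_one_mem T hΔ
    have h2 : T.act Δ 1 ∈ (T.K X).H (1 + ((1 : ℕ) : ℤ), 1 + ((1 : ℕ) : ℤ)) := by
      have e : ((1 : ℤ) + ((1 : ℕ) : ℤ), (1 : ℤ) + ((1 : ℕ) : ℤ)) = ((2, 2) : ℤ × ℤ) := by norm_num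
      rwa [e]
    have hk : (1 : ℤ) + 1 + ((1 : ℕ) : ℤ) = X.dim := by
      rw [hX]
      norm_num
    refine ⟨kap (T.K X) 1 (T.act Δ 1), alg_one T (ratOp_kap (T.r X) 1 _ (act_one_rat T Δ)) (kap_mem (T.K X) hk h2), ?_⟩
    have h3 := om_kap (T.K X) hk h2
    rw [pow_one] at h3
    exact h3
  obtain ⟨x, hx, h⟩ := this hz
  exact ⟨x, hx, h⟩

/-- correspondences preserve algebraic classes -/
lemma act_alg {X Y : Var 𝒪} {i j : ℤ} {Γ : X ⟶ Y} (hΓ : Γ ∈ T.gr X Y j) {x : (T.K X).R} (hx : x ∈ AlgC T X i) :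
    T.act Γ x ∈ AlgC T Y (i + j) := by
  have : AlgC T X i ≤ (AlgC T Y (i + j)).comap (actL T Γ) := by
    refine Submodule.span_le.2 ?_
    rintro _ ⟨Δ, hΔ, rfl⟩
    change T.act Γ (T.act Δ 1) ∈ AlgC T Y (i + j)
    rw [← T.act_comp]
    exact alg_mem T (T.comp_mem hΔ hΓ)
  exact this hx

/-- `H^0` is algebraic -/
lemma zero_alg {X : Var 𝒪} {x : (T.K X).R} (hx : x ∈ (T.K X).H (0, 0)) : x ∈ AlgC T X 0 := by
  obtain ⟨a, rfl⟩ := H_zero _ hx
  refine Submodule.smul_mem _ _ ?_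
  rw [← T.act_pt (Pt T) X]
  exact alg_mem T (T.pt_mem _ _)

/-- the top cohomology is algebraic -/
lemma top_alg {X : Var 𝒪} {x : (T.K X).R} (hx : x ∈ (T.K X).H (X.dim, X.dim)) : x ∈ AlgC T X X.dim := by
  rw [← pt_top T X (Pt T) hx]
  have h1 := T.tp_mem (T.pt_mem (Pt T) X)
  have h2 := T.act_mem h1 _ _ _ hx
  have e : ((X.dim : ℤ) + ((((Pt T).dim : ℕ) : ℤ) + 0 - X.dim), (X.dim : ℤ) + ((((Pt T).dim : ℕ) : ℤ) + 0 - X.dim)) =
      ((0, 0) : ℤ × ℤ) := by simp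
  rw [e] at h2
  have h3 := act_alg T (T.tp_mem (T.pt_mem X (Pt T))) (zero_alg T h2)
  have e2 : (0 : ℤ) + ((X.dim : ℤ) + 0 - (((Pt T).dim : ℕ) : ℤ)) = X.dim := by simp
  rwa [e2] at h3

/-- correspondences of degree zero which come from curves map `H^4` to algebraic classes -/
lemma thru_alg {X : Var 𝒪} {R : X ⟶ X} (hR : R ∈ Through 1 X X) (hR0 : R ∈ T.gr X X 0) {p q : ℤ} (hpq : p + q = 4)
    {y : (T.K X).R} (hy : y ∈ (T.K X).H (p, q)) : T.act R y ∈ AlgC T X 2 := by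
  let S : Submodule ℚ (X ⟶ X) :=
    { carrier := {f | T.act f y ∈ AlgC T X 2}
      zero_mem' := by
        change T.act 0 y ∈ AlgC T X 2
        rw [act_zero]
        exact zero_mem _
      add_mem' := by
        intro f g hf hg
        change T.act (f + g) y ∈ AlgC T X 2
        rw [T.act_add]
        exact add_mem hf hg
      smul_mem' := by
        intro c f hf
        change T.act (c • f) y ∈ AlgC T X 2
        rw [act_smulQ]
        exact Submodule.smul_mem _ _ hf }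
  have h1 : cmp (T.isInternal X X) 0 R ∈ S := by
    refine span_map_le _ ?_ hR
    rintro f ⟨Z, a, b, hZ, rfl⟩
    refine cmp_comp T (fun j a b ha hb => ?_) a b
    change T.act (a ≫ b) y ∈ AlgC T X 2
    rw [T.act_comp]
    have h2 := T.act_mem ha p q y hy
    by_cases h0 : p + -j = 0 ∧ q + -j = 0
    · rw [h0.1, h0.2] at h2
      have h3 := act_alg T hb (zero_alg T h2)
      have e : (0 : ℤ) + j = 2 := by omega
      rwa [e] at h3
    · by_cases h1 : p + -j = 1 ∧ q + -j = 1 ∧ Z.dim = 1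
      · have h4 : ((Z.dim : ℤ), (Z.dim : ℤ)) = ((1, 1) : ℤ × ℤ) := by rw [h1.2.2]; rfl
        rw [h1.1, h1.2.1, ← h4] at h2
        have h3 := act_alg T hb (top_alg T h2)
        have e : (Z.dim : ℤ) + j = 2 := by
          rw [h1.2.2]
          push_cast
          omega
        rwa [e] at h3
      · rw [H_van _ (by omega) h2, act_zero']
        exact zero_mem _
  rw [cmp_of_mem _ hR0] at h1
  exact h1

end Pool.Agent.L0h14.UR
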