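import Pool.Agent.L0h14.UR.Inj

/-!
# Uniruled threefolds: the standard conjecture of Lefschetz type (continued)
-/

universe u v

open CategoryTheory
open scoped ComplexConjugate

set_option autoImplicit false

namespace Pool.Agent.L0h14.UR

open Pool.Agent.W539.DI Pool.Agent.R941.OH Pool.Agent.N174.OC Pool.Agent.L0h14.OR Pool.Agent.Y107

variable {𝒪 : ℕ → Type u} [Category.{v} (Var 𝒪)] [Preadditive (Var 𝒪)] [Linear ℚ (Var 𝒪)] (T : ChowTheory 𝒪)

lemma small_zero {X : Var 𝒪} : Small T X 0 := by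
  refine ⟨1, 0, 0, fun _ => Pt T, fun _ => T.pt X (Pt T), fun _ => T.pt (Pt T) X, Or.inl ⟨rfl, fun _ => rfl⟩, by simp,
    fun _ => ?_, fun _ => T.pt_mem _ _, fun p q x hx hpq => ?_⟩
  · rw [neg_zero]
    exact T.pt_mem _ _
  · rw [Fin.sum_univ_one]
    by_cases h : p = 0 ∧ q = 0
    · obtain ⟨rfl, rfl⟩ := h
      exact pt_bot T X (Pt T) hx
    · have : x = 0 := H_van _ (by push_cast at hpq; omega) hx
      rw [this, act_zero', act_zero']

lemma small_one {X : Var 𝒪} (hX : 1 ≤ X.dim) : Small T X 1 := by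
  refine ⟨1, 0, 1, fun _ => X, fun _ => 𝟙 X, fun _ => 𝟙 X, Or.inr ⟨rfl, fun _ => hX⟩, by simp,
    fun _ => ?_, fun _ => T.id_mem X, fun p q x hx hpq => ?_⟩
  · rw [neg_zero]
    exact T.id_mem X
  · rw [Fin.sum_univ_one, T.act_id, T.act_id]

/-- the operator `l` in degree four, extended by zero -/
lemma exists_S0 {X : Var 𝒪} (hX : X.dim = 3) {l : X ⟶ X} (hl : l ∈ T.gr X X (-1)) : ∃ S : X ⟶ X,
    (∀ (p q : ℤ) (y : (T.K X).R), y ∈ (T.K X).H (p, q) → p + q = 4 → T.act S y = T.act l y) ∧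
    ∀ (p q : ℤ) (y : (T.K X).R), y ∈ (T.K X).H (p, q) → p + q ≠ 4 → T.act S y = 0 := by
  have hX' : (X.dim : ℤ) = 3 := by exact_mod_cast hX
  have i0 : HasInj T X (X.dim - 3) := by
    have := B2 T X 0 (by omega) (small_zero T)
    rwa [hX]
  have i1 : HasInj T X (X.dim - 2) := by
    have := B2 T X 1 (by omega) (small_one T (by omega))
    rwa [hX]
  obtain ⟨Γ3, g1, g2⟩ := b3_pos T X 3 (by norm_num) (by omega) i0
  obtain ⟨Γ2, f1, f2⟩ := b3_pos T X 2 (by norm_num) (by omega) i1
  -- the projectors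
  have a3 : ∀ (p q : ℤ) (y : (T.K X).R), y ∈ (T.K X).H (p, q) → p + q = 6 → (T.K X).ω ^ 3 * T.act Γ3 y = y := by
    intro p q y hy hpq
    have hy' : y ∈ (T.K X).H ((p - 3) + ((3 : ℕ) : ℤ), (q - 3) + ((3 : ℕ) : ℤ)) := by
      have e : ((p - 3) + ((3 : ℕ) : ℤ), (q - 3) + ((3 : ℕ) : ℤ)) = ((p, q) : ℤ × ℤ) := by norm_num
      rwa [e]
    exact (g1 (p - 3) (q - 3) y hy' (by push_cast; omega)).2
  have b3 : ∀ (p q : ℤ) (y : (T.K X).R), y ∈ (T.K X).H (p, q) → p + q ≠ 6 → T.act Γ3 y = 0 := by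
    intro p q y hy hpq
    exact g2 p q y hy (by push_cast; omega)
  have a2 : ∀ (p q : ℤ) (y : (T.K X).R), y ∈ (T.K X).H (p, q) → p + q = 5 → (T.K X).ω ^ 2 * T.act Γ2 y = y := by
    intro p q y hy hpq
    have hy' : y ∈ (T.K X).H ((p - 2) + ((2 : ℕ) : ℤ), (q - 2) + ((2 : ℕ) : ℤ)) := by
      have e : ((p - 2) + ((2 : ℕ) : ℤ), (q - 2) + ((2 : ℕ) : ℤ)) = ((p, q) : ℤ × ℤ) := by norm_num
      rwa [e]
    exact (f1 (p - 2) (q - 2) y hy' (by push_cast; omega)).2
  have b2 : ∀ (p q : ℤ) (y : (T.K X).R), y ∈ (T.K X).H (p, q) → p + q ≠ 5 → T.act Γ2 y = 0 := by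
    intro p q y hy hpq
    exact f2 p q y hy (by push_cast; omega)
  have c3 : ∀ (p q : ℤ) (x : (T.K X).R), x ∈ (T.K X).H (p, q) → p + q = 0 → T.act Γ3 ((T.K X).ω ^ 3 * x) = x := by
    intro p q x hx hpq
    have h1 := (T.K X).pow_mul_mem (T.K X).ω_mem 3 hx
    have h2 := g1 p q _ h1 (by push_cast; omega)
    have h3 := (T.K X).hl_inj p q 3 (by push_cast; omega) _ (Submodule.sub_mem _ h2.1 hx)
      (by rw [mul_sub, h2.2, sub_self])
    exact sub_eq_zero.1 h3
  have c2 : ∀ (p q : ℤ) (x : (T.K X).R), x ∈ (T.K X).H (p, q) → p + q = 1 → T.act Γ2 ((T.K X).ω ^ 2 * x) = x := by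
    intro p q x hx hpq
    have h1 := (T.K X).pow_mul_mem (T.K X).ω_mem 2 hx
    have h2 := f1 p q _ h1 (by push_cast; omega)
    have h3 := (T.K X).hl_inj p q 2 (by push_cast; omega) _ (Submodule.sub_mem _ h2.1 hx)
      (by rw [mul_sub, h2.2, sub_self])
    exact sub_eq_zero.1 h3
  set u : X ⟶ X := 𝟙 X - (Γ3 ≫ b3om T X 3 + Γ2 ≫ b3om T X 2) with hu
  set w : X ⟶ X := 𝟙 X - (b3om T X 3 ≫ Γ3 + b3om T X 2 ≫ Γ2) with hw
  have eu : ∀ y, T.act u y = y - ((T.K X).ω ^ 3 * T.act Γ3 y + (T.K X).ω ^ 2 * T.act Γ2 y) := by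
    intro y
    rw [hu, act_sub, T.act_id, T.act_add, T.act_comp, T.act_comp, act_b3om, act_b3om]
  have ew : ∀ y, T.act w y = y - (T.act Γ3 ((T.K X).ω ^ 3 * y) + T.act Γ2 ((T.K X).ω ^ 2 * y)) := by
    intro y
    rw [hw, act_sub, T.act_id, T.act_add, T.act_comp, T.act_comp, act_b3om, act_b3om]
  refine ⟨u ≫ l ≫ w, ?_, ?_⟩
  · intro p q y hy hpq
    have h1 := T.act_mem hl p q y hy
    have m3 := (T.K X).pow_mul_mem (T.K X).ω_mem 3 h1
    have m2 := (T.K X).pow_mul_mem (T.K X).ω_mem 2 h1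
    rw [T.act_comp, T.act_comp, eu, b3 p q y hy (by omega), b2 p q y hy (by omega), mul_zero, mul_zero, add_zero, sub_zero,
      ew, b3 _ _ _ m3 (by push_cast; omega), b2 _ _ _ m2 (by push_cast; omega), add_zero, sub_zero]
  · intro p q y hy hpq
    rw [T.act_comp, T.act_comp]
    by_cases h6 : p + q = 6
    · have : T.act u y = 0 := by rw [eu, a3 p q y hy h6, b2 p q y hy (by omega), mul_zero, add_zero, sub_self]
      rw [this, act_zero', act_zero']
    by_cases h5 : p + q = 5
    · have : T.act u y = 0 := by rw [eu, a2 p q y hy h5, b3 p q y hy (by omega), mul_zero, zero_add, sub_self]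
      rw [this, act_zero', act_zero']
    have hy0 : T.act u y = y := by
      rw [eu, b3 p q y hy h6, b2 p q y hy h5, mul_zero, mul_zero, add_zero, sub_zero]
    rw [hy0]
    by_cases hv : 6 < p + q ∨ p + q < 2
    · have h1 := T.act_mem hl p q y hy
      have : T.act l y = 0 := by
        rcases hv with hv | hv
        · have : y = 0 := H_van _ (by omega) hy
          rw [this, act_zero']
        · exact H_van _ (by omega) h1
      rw [this, act_zero']
    · have h1 := T.act_mem hl p q y hy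
      have m3 := (T.K X).pow_mul_mem (T.K X).ω_mem 3 h1
      have m2 := (T.K X).pow_mul_mem (T.K X).ω_mem 2 h1
      have h23 : p + q = 2 ∨ p + q = 3 := by omega
      rcases h23 with h | h
      · rw [ew, c3 _ _ _ h1 (by omega), b2 _ _ _ m2 (by push_cast; omega), add_zero, sub_self]
      · rw [ew, c2 _ _ _ h1 (by omega), b3 _ _ _ m3 (by push_cast; omega), zero_add, sub_self]

/-- the algebraic classes -/
lemma exists_theta {X : Var 𝒪} (hX : X.dim = 3) : ∃ θ ∈ T.gr X X (-1),
    (∀ (p q : ℤ) (y : (T.K X).R), y ∈ (T.K X).H (p, q) → p + q ≠ 4 → T.act θ y = 0) ∧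
    ∀ (p q : ℤ) (y : (T.K X).R), y ∈ (T.K X).H (p, q) → p + q = 4 → T.act θ y ∈ AlgC T X 1 ∧
      (T.act θ y = 0 → ∀ x ∈ AlgC T X 1, (T.K X).tr (x * y) = 0) := by
  classical
  have hX' : (X.dim : ℤ) = 3 := by exact_mod_cast hX
  have hfg : (AlgC T X 1).FG := IsNoetherian.noetherian _
  obtain ⟨t, ht, hspan⟩ := (Submodule.fg_span_iff_fg_span_finset_subset _).1 hfg
  have ht' : ∀ E ∈ t, ∃ Δ ∈ T.gr (Pt T) X 1, E = T.act Δ 1 := fun E hE => ht hE
  choose! Δ hΔ hE using ht'
  have hdeg : ∀ E ∈ t, T.tp (Δ E) ∈ T.gr X (Pt T) (-2) := by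
    intro E hE'
    have h := T.tp_mem (hΔ E hE')
    have e : (((Pt T).dim : ℕ) : ℤ) + 1 - X.dim = -2 := by
      rw [hX']
      norm_num
    rwa [e] at h
  set θ : X ⟶ X := ∑ E ∈ t, T.tp (Δ E) ≫ Δ E with hθ
  have hact : ∀ y, T.act θ y = ∑ E ∈ t, T.act (Δ E) (T.act (T.tp (Δ E)) y) := by
    intro y
    rw [hθ, act_sum]
    exact Finset.sum_congr rfl fun E _ => by rw [T.act_comp]
  refine ⟨θ, ?_, ?_, ?_⟩
  · refine Submodule.sum_mem _ fun E hE' => ?_
    have := T.comp_mem (hdeg E hE') (hΔ E hE')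
    have e : (-2 : ℤ) + 1 = -1 := by norm_num
    rwa [e] at this
  · intro p q y hy hpq
    rw [hact]
    refine Finset.sum_eq_zero fun E hE' => ?_
    rw [H_van _ (by have : (((Pt T).dim : ℕ) : ℤ) = 0 := rfl
                    omega) (T.act_mem (hdeg E hE') p q y hy), act_zero']
  · intro p q y hy hpq
    by_cases h2 : p = 2 ∧ q = 2
    · obtain ⟨rfl, rfl⟩ := h2
      have hc : ∀ E ∈ t, ∃ c : ℂ, T.act (T.tp (Δ E)) y = c • (1 : (T.K (Pt T)).R) := by
        intro E hE'
        have h := T.act_mem (hdeg E hE') 2 2 y hy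
        rw [add_neg_cancel] at h
        exact H_zero _ h
      choose! c hc using hc
      have hθy : T.act θ y = ∑ E ∈ t, c E • E := by
        rw [hact]
        refine Finset.sum_congr rfl fun E hE' => ?_
        rw [hc E hE', T.act_smul', ← hE E hE']
      refine ⟨?_, fun h0 => ?_⟩
      · rw [hθy]
        refine Submodule.sum_mem _ fun E hE' => Submodule.smul_mem _ _ ?_
        rw [hE E hE']
        exact alg_mem T (hΔ E hE')
      · set τ : ℂ := (T.K (Pt T)).tr 1 with hτ
        have htr : ∀ E ∈ t, (T.K X).tr (E * y) = c E * τ := by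
          intro E hE'
          have h := T.act_tp (Δ E) 1 y
          rw [hc E hE', one_mul, map_smul, smul_eq_mul, ← hE E hE'] at h
          exact h.symm
        have hreal : ∀ E ∈ t, (T.K X).bar E = E := by
          intro E hE'
          have h := act_one_rat T (Δ E)
          rw [← hE E hE'] at h
          exact rat_bar (T.r X) h
        have hτr : conj τ = τ := by
          rw [hτ, ← (T.K (Pt T)).tr_bar, rat_bar (T.r (Pt T)) (fun i => (T.r (Pt T)).one_rat i)]
        have hbar : ∀ E ∈ t, (T.K X).tr (E * (T.K X).bar y) = conj (c E) * τ := by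
          intro E hE'
          have h := (T.K X).tr_bar (E * y)
          rw [(T.K X).bar_mul, hreal E hE', htr E hE', RingHom.map_mul, hτr] at h
          exact h
        have hsum : ∑ E ∈ t, c E * (conj (c E) * τ) = 0 := by
          have h := congrArg (fun z => (T.K X).tr (z * (T.K X).bar y)) (hθy.symm.trans h0)
          simp only [zero_mul, map_zero] at h
          rw [Finset.sum_mul, map_sum] at h
          rw [← h]
          refine Finset.sum_congr rfl fun E hE' => ?_
          rw [smul_mul_assoc, map_smul, hbar E hE', smul_eq_mul]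
        have hτ0 : τ ≠ 0 := tau_ne T
        have hns : ∑ E ∈ t, Complex.normSq (c E) = 0 := by
          have h : ((∑ E ∈ t, Complex.normSq (c E) : ℝ) : ℂ) * τ = 0 := by
            rw [← hsum]
            push_cast
            rw [Finset.sum_mul]
            refine Finset.sum_congr rfl fun E _ => ?_
            rw [← Complex.mul_conj]
            ring
          rcases mul_eq_zero.1 h with h | h
          · exact_mod_cast h
          · exact absurd h hτ0
        have hc0 : ∀ E ∈ t, c E = 0 := fun E hE' =>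
          Complex.normSq_eq_zero.1 ((Finset.sum_eq_zero_iff_of_nonneg fun E _ => Complex.normSq_nonneg _).1 hns E hE')
        intro x hx
        have hx' : x ∈ Submodule.span ℂ (t : Set (T.K X).R) := by
          rw [← hspan]
          exact hx
        have hle : Submodule.span ℂ (t : Set (T.K X).R) ≤
            LinearMap.ker ((T.K X).tr ∘ₗ (LinearMap.mulRight ℂ y)) := by
          refine Submodule.span_le.2 fun E hE' => ?_
          change (T.K X).tr (E * y) = 0
          rw [htr E hE', hc0 E hE', zero_mul]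
        exact hle hx'
    · have h0 : T.act θ y = 0 := by
        rw [hact]
        refine Finset.sum_eq_zero fun E hE' => ?_
        rw [H_van _ (by have : (((Pt T).dim : ℕ) : ℤ) = 0 := rfl
                        omega) (T.act_mem (hdeg E hE') p q y hy), act_zero']
      rw [h0]
      refine ⟨zero_mem _, fun _ x hx => ?_⟩
      have h1 := alg_le T hx
      have h2' : x * y ∈ (T.K X).H (1 + p, 1 + q) := SetLike.GradedMul.mul_mem (A := (T.K X).H) h1 hy
      exact (T.K X).tr_van _ _ _ h2' (by omega)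

end Pool.Agent.L0h14.UR
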