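import Pool.Agent.L0h14.UR.Inj2

/-!
# Uniruled threefolds: the standard conjecture of Lefschetz type (end)
-/

universe u v

open CategoryTheory
open scoped ComplexConjugate

set_option autoImplicit false

namespace Pool.Agent.L0h14.UR

open Pool.Agent.W539.DI Pool.Agent.R941.OH Pool.Agent.N174.OC Pool.Agent.L0h14.OR Pool.Agent.Y107

variable {𝒪 : ℕ → Type u} [Category.{v} (Var 𝒪)] [Preadditive (Var 𝒪)] [Linear ℚ (Var 𝒪)] (T : ChowTheory 𝒪)

lemma bar_alg {X : Var 𝒪} {i : ℤ} {x : (T.K X).R} (hx : x ∈ AlgC T X i) : (T.K X).bar x ∈ AlgC T X i := by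
  refine Submodule.span_induction (p := fun x _ => (T.K X).bar x ∈ AlgC T X i) ?_ ?_ ?_ ?_ hx
  · rintro _ ⟨Δ, hΔ, rfl⟩
    rw [rat_bar (T.r X) (act_one_rat T Δ)]
    exact alg_mem T hΔ
  · rw [map_zero]
    exact zero_mem _
  · intro x y _ _ h1 h2
    rw [map_add]
    exact add_mem h1 h2
  · intro a x _ h
    rw [LinearMap.map_smulₛₗ]
    exact Submodule.smul_mem _ _ h

lemma om_alg {X : Var 𝒪} : (T.K X).ω ∈ AlgC T X 1 := alg_one T (T.r X).om_rat (T.K X).ω_mem

/-- the Hodge index theorem for divisors on a threefold -/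
lemma hodge_index {X : Var 𝒪} (hX : X.dim = 3) {x : (T.K X).R} (hx : x ∈ AlgC T X 1)
    (h : ∀ x' ∈ AlgC T X 1, (T.K X).tr (x' * ((T.K X).ω * x)) = 0) : x = 0 := by
  have hX' : (X.dim : ℤ) = 3 := by exact_mod_cast hX
  by_contra hne
  have hx1 : x ∈ (T.K X).H (1, 1) := alg_le T hx
  have h1 := h _ (om_alg T)
  have h2 := h _ (bar_alg T hx)
  have hprim : (T.K X).ω ^ (1 + 1) * x = 0 := by
    have hm : (T.K X).ω ^ (1 + 1) * x ∈ (T.K X).H (1 + ((1 + 1 : ℕ) : ℤ), 1 + ((1 + 1 : ℕ) : ℤ)) :=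
      (T.K X).pow_mul_mem (T.K X).ω_mem 2 hx1
    refine (T.K X).pd _ _ _ hm fun y hy => ?_
    have e : ((X.dim : ℤ) - (1 + ((1 + 1 : ℕ) : ℤ)), (X.dim : ℤ) - (1 + ((1 + 1 : ℕ) : ℤ))) = ((0, 0) : ℤ × ℤ) := by
      rw [hX']
      norm_num
    rw [e] at hy
    obtain ⟨a, rfl⟩ := H_zero _ hy
    rw [mul_smul_comm, mul_one, map_smul, pow_succ, pow_one, mul_assoc, h1, smul_zero]
  obtain ⟨r, hr, h3⟩ := (T.K X).hr 1 1 1 (by rw [hX']; norm_num) x hx1 hne hprim
  have hb : (T.K X).bar x ∈ (T.K X).H (1, 1) := (T.K X).bar_mem 1 1 x hx1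
  have hw : (T.K X).ω * x ∈ (T.K X).H (1 + 1, 1 + 1) := SetLike.GradedMul.mul_mem (A := (T.K X).H) (T.K X).ω_mem hx1
  have hc := (T.K X).comm 1 1 (1 + 1) (1 + 1) _ _ hb hw
  have hs : ((-1 : ℂ) ^ (((1 : ℤ) + 1) * ((1 + 1) + (1 + 1)))) = 1 := by norm_num
  rw [hs, one_smul] at hc
  rw [hc, mul_assoc] at h2
  rw [pow_one, h2, mul_zero] at h3
  have : (r : ℂ) ≠ 0 := by exact_mod_cast hr.ne'
  exact this h3.symm

theorem hasInj_two {X : Var 𝒪} (hX : X.dim = 3) {κ : X ⟶ X} (hR : Ruled T κ) : HasInj T X 2 := by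
  have hX' : (X.dim : ℤ) = 3 := by exact_mod_cast hX
  obtain ⟨hκ, l, hl, hR⟩ := hR
  obtain ⟨S0, s1, s2⟩ := exists_S0 T hX hl
  obtain ⟨θ, hθ, t1, t2⟩ := exists_theta T hX
  set A : End X := θ ≫ T.om X with hAdef
  have hA : ∀ y, b3R T X A y = (T.K X).ω * T.act θ y := by
    intro y
    rw [b3R_apply, hAdef, T.act_comp, T.act_om]
  let W : Submodule ℂ (T.K X).R := (AlgC T X 1).map (LinearMap.mulLeft ℂ (T.K X).ω)
  have hAW : ∀ (p q : ℤ) (y : (T.K X).R), y ∈ (T.K X).H (p, q) → p + q = 4 → b3R T X A y ∈ W := by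
    intro p q y hy hpq
    rw [hA]
    exact ⟨T.act θ y, (t2 p q y hy hpq).1, rfl⟩
  have hWH : ∀ y ∈ W, y ∈ (T.K X).H (2, 2) := by
    rintro _ ⟨x, hx, rfl⟩
    have h1 : (T.K X).ω * x ∈ (T.K X).H (1 + 1, 1 + 1) :=
      SetLike.GradedMul.mul_mem (A := (T.K X).H) (T.K X).ω_mem (alg_le T hx)
    have e : ((1 + 1, 1 + 1) : ℤ × ℤ) = (2, 2) := by norm_num
    rwa [e] at h1
  have hmem : ∀ (p q : ℤ) (y : (T.K X).R), y ∈ (T.K X).H (p, q) → b3R T X A y ∈ (T.K X).H (p, q) := by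
    intro p q y hy
    rw [hA]
    have h1 : (T.K X).ω * T.act θ y ∈ (T.K X).H (1 + (p + -1), 1 + (q + -1)) :=
      SetLike.GradedMul.mul_mem (A := (T.K X).H) (T.K X).ω_mem (T.act_mem hθ p q y hy)
    have e : ((1 + (p + -1), 1 + (q + -1)) : ℤ × ℤ) = (p, q) := by
      ext <;> simp
    rwa [e] at h1
  have kerA : ∀ (p q : ℤ) (y : (T.K X).R), y ∈ (T.K X).H (p, q) → p + q = 4 → b3R T X A y = 0 → T.act θ y = 0 := by
    intro p q y hy hpq h0
    rw [hA] at h0
    refine (T.K X).hl_inj (p + -1) (q + -1) 1 (by push_cast; omega) _ (T.act_mem hθ p q y hy) ?_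
    rw [pow_one]
    exact h0
  have injW : ∀ y ∈ W, b3R T X A y = 0 → y = 0 := by
    rintro y hy h0
    have h1 := hWH y hy
    have h2 := kerA 2 2 y h1 (by norm_num) h0
    have h3 := (t2 2 2 y h1 (by norm_num)).2 h2
    obtain ⟨x, hx, rfl⟩ := hy
    have h4 : x = 0 := hodge_index T hX hx h3
    rw [h4, map_zero]
  obtain ⟨pp, hpp, hz⟩ := b3_ann T X A
  obtain ⟨Q, hQ⟩ := b3_solve (b3R T X) A (fun _ : Unit => W) (fun _ y hy => hAW 2 2 y (hWH y hy) (by norm_num))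
    (fun _ => injW) _ pp rfl hpp (fun _ y _ => hz y)
  have hQ' : ∀ y ∈ W, b3R T X A (b3R T X (Polynomial.aeval A Q) y) = y := hQ ()
  set q' : End X := Polynomial.aeval A Q with hq'
  set S : X ⟶ X := (𝟙 X - (A : X ⟶ X) ≫ (q' : X ⟶ X)) ≫ S0 + θ with hS
  have hSact : ∀ y, T.act S y = T.act S0 (y - b3R T X q' (b3R T X A y)) + T.act θ y := by
    intro y
    rw [hS, T.act_add, T.act_comp, act_sub, T.act_id, T.act_comp]
    rfl
  have hz1 : ∀ (p q : ℤ) (y : (T.K X).R), y ∈ (T.K X).H (p, q) →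
      y - b3R T X q' (b3R T X A y) ∈ (T.K X).H (p, q) := by
    intro p q y hy
    refine Submodule.sub_mem _ hy ?_
    exact b3_inv (b3R T X) A ((T.K X).H (p, q)) (fun z hz => hmem p q z hz) Q _ (hmem p q y hy)
  refine ⟨S, ?_, ?_, ?_⟩
  · intro p q y hy hpq
    have hpq' : p + q ≠ 4 := by
      rw [hX'] at hpq
      push_cast at hpq
      omega
    have h1 : b3R T X A y = 0 := by rw [hA, t1 p q y hy hpq', mul_zero]
    rw [hSact, h1, map_zero, sub_zero, s2 p q y hy hpq', t1 p q y hy hpq', add_zero]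
  · intro p q y hy hpq
    have hpq' : p + q = 4 := by
      rw [hX'] at hpq
      push_cast at hpq
      omega
    rw [hSact, s1 p q _ (hz1 p q y hy) hpq']
    have e : ((p - ((X.dim : ℤ) - ((2 : ℕ) : ℤ)), q - ((X.dim : ℤ) - ((2 : ℕ) : ℤ))) : ℤ × ℤ) = (p + -1, q + -1) := by
      rw [hX']
      ext <;> simp <;> omega
    rw [e]
    exact add_mem (T.act_mem hl _ _ _ (hz1 p q y hy)) (T.act_mem hθ _ _ _ hy)
  · intro p q y hy hpq h0
    have hpq' : p + q = 4 := by
      rw [hX'] at hpq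
      push_cast at hpq
      omega
    set z := y - b3R T X q' (b3R T X A y) with hzdef
    have hzH := hz1 p q y hy
    rw [← hzdef] at hzH
    rw [hSact, ← hzdef, s1 p q z hzH hpq'] at h0
    have hAz : b3R T X A z = 0 := by
      rw [hzdef, map_sub, hQ' _ (hAW p q y hy hpq'), sub_self]
    have hlz : T.act l z ∈ AlgC T X 1 := by
      rw [eq_neg_of_add_eq_zero_left h0]
      exact neg_mem (t2 p q y hy hpq').1
    have hR0 : κ ≫ l + l ≫ κ - 𝟙 X ∈ T.gr X X 0 := by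
      refine sub_mem (add_mem ?_ ?_) (T.id_mem X)
      · have := T.comp_mem hκ hl
        rwa [add_neg_cancel] at this
      · have := T.comp_mem hl hκ
        rwa [neg_add_cancel] at this
    have hRz := thru_alg T hR hR0 hpq' hzH
    have h1 : T.act κ (T.act l z) ∈ AlgC T X 2 := by
      have := act_alg T hκ hlz
      norm_num at this
      exact this
    have h2 : T.act l (T.act κ z) ∈ AlgC T X 2 := by
      have hk := T.act_mem hκ p q z hzH
      have h3 : T.act κ z ∈ AlgC T X 3 := by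
        by_cases h22 : p = 2 ∧ q = 2
        · obtain ⟨rfl, rfl⟩ := h22
          have e : (((2 : ℤ) + 1, (2 : ℤ) + 1) : ℤ × ℤ) = ((X.dim : ℤ), (X.dim : ℤ)) := by
            rw [hX']
            norm_num
          rw [e] at hk
          have := top_alg T hk
          rwa [hX'] at this
        · rw [H_van _ (by omega) hk]
          exact zero_mem _
      have := act_alg T hl h3
      norm_num at this
      exact this
    have hzA : z ∈ AlgC T X 2 := by
      have e : z = T.act l (T.act κ z) + T.act κ (T.act l z) - T.act (κ ≫ l + l ≫ κ - 𝟙 X) z := by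
        rw [act_sub, T.act_add, T.act_comp, T.act_comp, T.act_id]
        abel
      rw [e]
      exact sub_mem (add_mem h2 h1) hRz
    obtain ⟨x, hx, hxz⟩ := alg_two T hX hzA
    have hz0 : z = 0 := injW z ⟨x, hx, hxz⟩ hAz
    have hθ0 : T.act θ y = 0 := by
      rw [hz0, act_zero', zero_add] at h0
      exact h0
    have hy0 : y = z + b3R T X q' (b3R T X A y) := by
      rw [hzdef]
      abel
    rw [hy0, hz0, hA, hθ0, mul_zero, map_zero, add_zero]

/-- uniruled threefolds satisfy the standard conjecture of Lefschetz type -/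
theorem conjB {X : Var 𝒪} (hX : X.dim = 3) {κ : X ⟶ X} (hR : Ruled T κ) : T.ConjB X := by
  refine B3 T X fun m hm => ?_
  have : m = 0 ∨ m = 1 ∨ m = 2 := by omega
  rcases this with rfl | rfl | rfl
  · exact B2 T X 0 hm (small_zero T)
  · exact B2 T X 1 hm (small_one T (by omega))
  · exact hasInj_two T hX hR

end Pool.Agent.L0h14.UR
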