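import Pool.Agent.L0h14.UR.Defs
import Pool.Agent.L0h14.OE.Hom
import Pool.Agent.L0h14.OR.Neg

/-!
# Uniruled threefolds: the components of degree zero are inverse to each other up to curves
-/

universe u v

open CategoryTheory

set_option autoImplicit false

namespace Pool.Agent.L0h14.UR

open Pool.Agent.W539.DI Pool.Agent.R941.OH Pool.Agent.N174.OC Pool.Agent.L0h14.OR Pool.Agent.Y107

variable {𝒪 : ℕ → Type u} [Category.{v} (Var 𝒪)] [Preadditive (Var 𝒪)] [Linear ℚ (Var 𝒪)]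

/-- correspondences of degree `-1` which commute with the canonical class come from curves -/
lemma neg_one_left (T : ChowTheory 𝒪) {X Y : Var 𝒪} (hX : X.dim = 3) {κ : X ⟶ X} (hR : Ruled T κ)
    {κ' : Y ⟶ Y} {f : X ⟶ Y} (hf : f ∈ T.gr X Y (-1)) (h : κ ≫ f = f ≫ κ') : f ∈ Through 1 X Y := by
  obtain ⟨hκ, l, hl, hR⟩ := hR
  have h2 : l ≫ f ∈ Through 1 X Y := by
    refine small_codim T X Y ?_ (T.comp_mem hl hf)
    rw [hX]
    norm_num
  have e : f = κ ≫ l ≫ f + (l ≫ f) ≫ κ' - (κ ≫ l + l ≫ κ - 𝟙 X) ≫ f := by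
    rw [Category.assoc, ← h, Preadditive.sub_comp, Preadditive.add_comp, Category.id_comp, Category.assoc, Category.assoc]
    abel
  rw [e]
  exact sub_mem (add_mem (thru_left _ h2) (thru_right h2 _)) (thru_right hR f)

lemma neg_one_right (T : ChowTheory 𝒪) {X Y : Var 𝒪} (hX : X.dim = 3) (hY : Y.dim = 3) {κ : X ⟶ X} (hR : Ruled T κ)
    {κ' : Y ⟶ Y} {f : Y ⟶ X} (hf : f ∈ T.gr Y X (-1)) (h : κ' ≫ f = f ≫ κ) : f ∈ Through 1 Y X := by
  obtain ⟨hκ, l, hl, hR⟩ := hR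
  have h2 : f ≫ l ∈ Through 1 Y X := by
    refine small_codim T Y X ?_ (T.comp_mem hf hl)
    rw [hY]
    norm_num
  have e : f = κ' ≫ f ≫ l + (f ≫ l) ≫ κ - f ≫ (κ ≫ l + l ≫ κ - 𝟙 X) := by
    rw [← Category.assoc, h, Preadditive.comp_sub, Preadditive.comp_add, Category.comp_id, Category.assoc, Category.assoc]
    abel
  rw [e]
  exact sub_mem (add_mem (thru_left _ h2) (thru_right h2 _)) (thru_left f hR)

/-- the components of negative degree come from curves -/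
lemma neg_left (T : ChowTheory 𝒪) {X Y : Var 𝒪} (hX : X.dim = 3) {κ : X ⟶ X} (hR : Ruled T κ)
    {κ' : Y ⟶ Y} {v : X ⟶ Y} (h : Intertwines T κ κ' v) {i : ℤ} (hi : i < 0) :
    cmp (T.isInternal X Y) i v ∈ Through 1 X Y := by
  obtain ⟨hκ, hκ', hv⟩ := h
  rcases eq_or_ne i (-1) with h1 | h1
  · subst h1
    refine neg_one_left T hX hR (cmp_mem _ _ _) (κ' := κ') ?_
    have e1 := OE.cmp_comp_left T.toCor hκ v (-1)
    have e2 := OE.cmp_comp_right T.toCor v hκ' (-1)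
    rw [← e1, ← e2, hv]
    norm_num
  · refine small_codim T X Y ?_ (cmp_mem (T.isInternal X Y) i v)
    rw [hX]
    push_cast
    omega

lemma neg_right (T : ChowTheory 𝒪) {X Y : Var 𝒪} (hX : X.dim = 3) (hY : Y.dim = 3) {κ : X ⟶ X} (hR : Ruled T κ)
    {κ' : Y ⟶ Y} {w : Y ⟶ X} (h : Intertwines T κ' κ w) {i : ℤ} (hi : i < 0) :
    cmp (T.isInternal Y X) i w ∈ Through 1 Y X := by
  obtain ⟨hκ', hκ, hw⟩ := h
  rcases eq_or_ne i (-1) with h1 | h1
  · subst h1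
    refine neg_one_right T hX hY hR (cmp_mem _ _ _) (κ' := κ') ?_
    have e1 := OE.cmp_comp_left T.toCor hκ' w (-1)
    have e2 := OE.cmp_comp_right T.toCor w hκ (-1)
    rw [← e1, ← e2, hw]
    norm_num
  · refine small_codim T Y X ?_ (cmp_mem (T.isInternal Y X) i w)
    rw [hY]
    push_cast
    omega

/-- the components of degree zero of `v` and `w` are inverse to each other up to correspondences which come from curves -/
lemma z0_inv (T : ChowTheory 𝒪) {X Y : Var 𝒪} {v : X ⟶ Y} {w : Y ⟶ X} (hvw : v ≫ w = 𝟙 X)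
    (hv : ∀ i < 0, cmp (T.isInternal X Y) i v ∈ Through 1 X Y)
    (hw : ∀ i < 0, cmp (T.isInternal Y X) i w ∈ Through 1 Y X) :
    cmp (T.isInternal X Y) 0 v ≫ cmp (T.isInternal Y X) 0 w - 𝟙 X ∈ Through 1 X X := by
  have h := OE.z0_comp T.toCor v w (Through 1 X X) (fun i hi => by
    rcases lt_or_gt_of_ne hi with h | h
    · exact thru_right (hv i h) _
    · exact thru_left _ (hw (-i) (by omega)))
  have e1 : cmp (T.isInternal X X) 0 (v ≫ w) = 𝟙 X := by
    rw [hvw]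
    exact cmp_of_mem _ (T.id_mem X)
  rw [e1] at h
  have := neg_mem h
  rwa [neg_sub] at this

/-- the inverse intertwines as well -/
lemma inter_inv {T : ChowTheory 𝒪} {X Y : Var 𝒪} {κ : X ⟶ X} {κ' : Y ⟶ Y} {v : X ⟶ Y} {w : Y ⟶ X}
    (h : Intertwines T κ κ' v) (hvw : v ≫ w = 𝟙 X) (hwv : w ≫ v = 𝟙 Y) : Intertwines T κ' κ w := by
  obtain ⟨h1, h2, h3⟩ := h
  refine ⟨h2, h1, ?_⟩
  calc κ' ≫ w = (w ≫ v) ≫ κ' ≫ w := by rw [hwv, Category.id_comp]
    _ = w ≫ (v ≫ κ') ≫ w := by simp only [Category.assoc]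
    _ = w ≫ (κ ≫ v) ≫ w := by rw [h3]
    _ = (w ≫ κ) ≫ v ≫ w := by simp only [Category.assoc]
    _ = w ≫ κ := by rw [hvw, Category.comp_id]

end Pool.Agent.L0h14.UR
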